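import Pool.Agent.X19.LU.Uniq

/-!
# MP_38292b_an: the extension by the additive rule of an LU function need not be LU

Q1 has the answer no. The simplex `K` is a compact convex set in a countable power of the real line.
Its extreme points are the points `c` of the Cantor space outside a countable dense set `{q_j}`, and
two isolated points `e_j^+`, `e_j^-` with midpoint `q_j` for each `j`. The function `f` is `1` at the
points `e_j^±` and `3` at the other extreme points; it is even upper semicontinuous. Its extension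
is `2` at the `q_j` and `3` at the other points of the Cantor space, so that it is not a limit of
a nondecreasing sequence of upper semicontinuous functions, by Baire's theorem.
-/

set_option autoImplicit false

open MeasureTheory Set Filter Topology

namespace Pool.Agent.Results.MP_38292b_an.AdditiveExtensionFails

section
variable {E : Type*} [AddCommGroup E] [Module ℝ E] [TopologicalSpace E] [MeasurableSpace E]

/-- The Borel probability measure `ξ` is concentrated on the extreme points of `K` and has the
barycentre `v`. -/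
def Represents (K : Set E) (ξ : Measure E) (v : E) : Prop :=
  IsProbabilityMeasure ξ ∧ ξ (extremePoints ℝ K)ᶜ = 0 ∧ ∀ ℓ : E →L[ℝ] ℝ, ∫ x, ℓ x ∂ξ = ℓ v

/-- `K` is a metrizable Choquet simplex. (`E` will be a locally convex Hausdorff space with its
Borel sets.) -/
structure IsChoquetSimplex (K : Set E) : Prop where
  nonempty : K.Nonempty
  compact : IsCompact K
  convex : Convex ℝ K
  metrizable : TopologicalSpace.MetrizableSpace K
  existsUnique : ∀ v ∈ K, ∃! ξ : Measure E, Represents K ξ v

/-- A function of Young class LU: the pointwise limit of a nondecreasing sequence of upper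
semicontinuous functions. -/
def IsLU {Y : Type*} [TopologicalSpace Y] (g : Y → EReal) : Prop :=
  ∃ u : ℕ → Y → EReal, (∀ n, UpperSemicontinuous (u n)) ∧ (∀ y, Monotone fun n => u n y) ∧
    ∀ y, Tendsto (fun n => u n y) atTop (𝓝 (g y))

/-- `v` is the convex combination with positive weights `w e` of the points `e` of the finite set
`s` of extreme points. -/
def Comb (K : Set E) (s : Finset (extremePoints ℝ K)) (w : extremePoints ℝ K → ℝ) (v : E) : Prop :=
  (∀ e ∈ s, 0 < w e) ∧ ∑ e ∈ s, w e = 1 ∧ v = ∑ e ∈ s, w e • (e : E)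

/-- `F` is the extension of `f` by the additive rule. -/
def IsAdditiveExtension (K : Set E) (f : extremePoints ℝ K → ℕ∞) (F : K → ℕ∞) : Prop :=
  (∀ (v : K) (s : Finset (extremePoints ℝ K)) (w : extremePoints ℝ K → ℝ),
    Comb K s w (v : E) → F v = ∑ e ∈ s, f e) ∧
  ∀ v : K, (¬ ∃ s w, Comb K s w (v : E)) → F v = ⊤

end

open Pool.Agent.X19.LU (X G)

/-- the countable power of the real line which contains the simplex -/
abbrev V := (Finset ℕ ⊕ ℕ) → ℝ

theorem simplex : IsChoquetSimplex (Pool.Agent.X19.LU.K : Set V) where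
  nonempty := ⟨_, Pool.Agent.X19.LU.G_mem (σ := 1) (by simp) (fun _ => true)⟩
  compact := Pool.Agent.X19.LU.isCompact_K
  convex := Pool.Agent.X19.LU.convex_K
  metrizable := inferInstance
  existsUnique := by
    intro v hv
    obtain ⟨ξ, hξ⟩ := Pool.Agent.X19.LU.exists_rep hv
    exact ⟨ξ, hξ, fun ζ hζ => Pool.Agent.X19.LU.rep_unique hζ hξ⟩

/-- a finite convex combination as a representing measure -/
theorem represents_of_comb {K : Set V} {s : Finset (extremePoints ℝ K)}
    {w : extremePoints ℝ K → ℝ} {v : V} (h : Comb K s w v) :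
    Represents K (∑ e ∈ s, ENNReal.ofReal (w e) • Measure.dirac (e : V)) v := by
  classical
  obtain ⟨hw, h1, hv⟩ := h
  refine ⟨⟨?_⟩, ?_, ?_⟩
  · rw [Measure.finsetSum_apply]
    simp only [Measure.smul_apply, measure_univ, smul_eq_mul, mul_one]
    rw [← ENNReal.ofReal_sum_of_nonneg fun e he => (hw e he).le, h1, ENNReal.ofReal_one]
  · rw [Measure.finsetSum_apply]
    refine Finset.sum_eq_zero fun e _ => ?_
    rw [Measure.smul_apply, Measure.dirac_apply, Set.indicator_of_notMem (by simp)]
    simp
  · intro ℓ
    rw [integral_finsetSum_measure, hv, map_sum]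
    · refine Finset.sum_congr rfl fun e he => ?_
      rw [integral_smul_measure, integral_dirac, map_smul, ENNReal.toReal_ofReal (hw e he).le]
    · intro e _
      refine Integrable.smul_measure ?_ ENNReal.ofReal_ne_top
      exact integrable_dirac (by simp [enorm_lt_top])

theorem mem_iff_of_comb {K : Set V} {s : Finset (extremePoints ℝ K)}
    {w : extremePoints ℝ K → ℝ} {v : V} (h : Comb K s w v) (e : extremePoints ℝ K) :
    e ∈ s ↔ (∑ e ∈ s, ENNReal.ofReal (w e) • Measure.dirac (e : V)) {(e : V)} ≠ 0 := by
  classical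
  rw [Measure.finsetSum_apply]
  simp only [Measure.smul_apply, Measure.dirac_apply, smul_eq_mul]
  constructor
  · intro he h0
    have h1 := (Finset.sum_eq_zero_iff.1 h0) e he
    rw [Set.indicator_of_mem (mem_singleton _)] at h1
    simp only [Pi.one_apply, mul_one, ENNReal.ofReal_eq_zero] at h1
    exact absurd (h.1 e he) (not_lt.2 h1)
  · intro h0
    by_contra he
    apply h0
    refine Finset.sum_eq_zero fun d hd => ?_
    rw [Set.indicator_of_notMem, mul_zero]
    intro hde
    exact he ((Subtype.ext (mem_singleton_iff.1 hde)) ▸ hd)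

theorem comb_unique {s s' : Finset (extremePoints ℝ (Pool.Agent.X19.LU.K : Set V))}
    {w w' : extremePoints ℝ (Pool.Agent.X19.LU.K : Set V) → ℝ} {v : V}
    (h : Comb _ s w v) (h' : Comb _ s' w' v) : s = s' := by
  have e := Pool.Agent.X19.LU.rep_unique (represents_of_comb h) (represents_of_comb h')
  ext d
  rw [mem_iff_of_comb h, mem_iff_of_comb h', e]

/-- the additive extension exists -/
theorem exists_extension (f : extremePoints ℝ (Pool.Agent.X19.LU.K : Set V) → ℕ∞) :
    ∃ F, IsAdditiveExtension (Pool.Agent.X19.LU.K : Set V) f F := by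
  classical
  refine ⟨fun v => if h : ∃ s w, Comb _ s w (v : V) then ∑ e ∈ h.choose, f e else ⊤, ?_, ?_⟩
  · intro v s w h
    have hex : ∃ s w, Comb _ s w (v : V) := ⟨s, w, h⟩
    simp only [dif_pos hex]
    obtain ⟨w', h'⟩ := hex.choose_spec
    rw [comb_unique h' h]
  · intro v h
    simp only [dif_neg h]

/-- neighbourhoods in the Cantor space -/
theorem nhd {O : Set X} (hO : IsOpen O) {c : X} (hc : c ∈ O) :
    ∃ n : ℕ, ∀ d : X, (∀ i < n, d i = c i) → d ∈ O := by
  obtain ⟨I, u, hu, hsub⟩ := isOpen_pi_iff.1 hO c hc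
  refine ⟨I.sup id + 1, fun d hd => hsub fun i hi => ?_⟩
  rw [hd i (Nat.lt_succ_of_le (Finset.le_sup (f := id) hi))]
  exact (hu i hi).2

/-- **The extension of an LU function by the additive rule need not be LU.** There are a metrizable
Choquet simplex `K` (in the locally convex metrizable space `(Finset ℕ ⊕ ℕ) → ℝ`) and a function
`f` on its extreme points with the values `1` and `3`, which is upper semicontinuous (so LU), such
that the extension `F` of `f` by the additive rule, which exists, is not of class LU on `K`. -/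
theorem result :
    ∃ K : Set V, IsChoquetSimplex K ∧
      ∃ f : extremePoints ℝ K → ℕ∞, (∀ e, f e = 1 ∨ f e = 3) ∧
        UpperSemicontinuous (fun e => (((f e : ℕ∞) : ENNReal) : EReal)) ∧
        IsLU (fun e => (((f e : ℕ∞) : ENNReal) : EReal)) ∧
        (∃ F, IsAdditiveExtension K f F) ∧
        ∀ F, IsAdditiveExtension K f F → ¬ IsLU (fun v => (((F v : ℕ∞) : ENNReal) : EReal)) := by
  classical
  set K : Set V := Pool.Agent.X19.LU.K with hK
  let P : V → Prop := fun v => ∃ j, v (Sum.inr j) ≠ 0
  have hP : IsOpen {v : V | P v} := by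
    have : {v : V | P v} = ⋃ j, {v : V | v (Sum.inr j) ≠ 0} := by
      ext v; simp [P]
    rw [this]
    exact isOpen_iUnion fun j => isOpen_ne_fun (continuous_apply _) continuous_const
  let f : extremePoints ℝ K → ℕ∞ := fun e => if P (e : V) then 1 else 3
  have husc : UpperSemicontinuous (fun e => (((f e : ℕ∞) : ENNReal) : EReal)) := by
    intro e y hy
    by_cases he : P (e : V)
    · have ho : IsOpen {d : extremePoints ℝ K | P (d : V)} := hP.preimage continuous_subtype_val
      filter_upwards [ho.mem_nhds he] with d hd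
      simp only [f, if_pos he] at hy
      have hd' : P (d : V) := hd
      simp only [f, if_pos hd']
      exact hy
    · refine Eventually.of_forall fun d => lt_of_le_of_lt ?_ hy
      simp only [f, if_neg he]
      split_ifs
      · rw [EReal.coe_ennreal_le_coe_ennreal_iff]
        norm_cast
      · exact le_rfl
  refine ⟨K, simplex, f, fun e => ?_, husc, ?_, exists_extension f, ?_⟩
  · simp only [f]; split_ifs <;> simp
  · exact ⟨fun _ => fun e => (((f e : ℕ∞) : ENNReal) : EReal), fun _ => husc,
      fun _ => monotone_const, fun _ => tendsto_const_nhds⟩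
  rintro F ⟨hF, -⟩ ⟨u, hu, hmono, hlim⟩
  -- the Cantor set in the simplex
  let γ : X → K := fun c => ⟨G 0 c, Pool.Agent.X19.LU.G_mem (by simp) c⟩
  have hγ : Continuous γ := by
    refine Continuous.subtype_mk (continuous_pi fun i => ?_) _
    rcases i with T | j
    · simp only [Pool.Agent.X19.LU.G_inl]
      have hcl := Pool.Agent.X19.LU.A_clopen T
      exact (IsClopen.continuous_indicator hcl continuous_const)
    · simp only [Pool.Agent.X19.LU.G_inr]
      have : (fun c : X => ({Pool.Agent.X19.LU.q j} : Set X).indicator (fun _ => (0 : ℝ)) c)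
          = fun _ => 0 := by
        funext c; simp [Set.indicator]
      rw [this]; exact continuous_const
  have hQ : ∀ j, F (γ (Pool.Agent.X19.LU.q j)) = 2 := by
    intro j
    set c := Pool.Agent.X19.LU.q j with hc
    let e1 : extremePoints ℝ K := ⟨G 1 c, Pool.Agent.X19.LU.G_ext (by simp) c⟩
    let e2 : extremePoints ℝ K := ⟨G (-1) c, Pool.Agent.X19.LU.G_ext (by simp) c⟩
    have v1 : (e1 : V) (Sum.inr j) = 1 := by
      change G 1 c (Sum.inr j) = 1
      rw [Pool.Agent.X19.LU.G_inr, Set.indicator_of_mem (mem_singleton_iff.2 hc)]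
    have v2 : (e2 : V) (Sum.inr j) = -1 := by
      change G (-1) c (Sum.inr j) = -1
      rw [Pool.Agent.X19.LU.G_inr, Set.indicator_of_mem (mem_singleton_iff.2 hc)]
    have hne : e1 ≠ e2 := by
      intro h
      rw [h, v2] at v1
      norm_num at v1
    have hcomb : Comb K {e1, e2} (fun _ => 1 / 2) ((γ c : K) : V) := by
      refine ⟨fun _ _ => by norm_num, ?_, ?_⟩
      · rw [Finset.sum_pair hne]; norm_num
      · rw [Finset.sum_pair hne]
        have := Pool.Agent.X19.LU.G_conv 0 c
        change G 0 c = _
        rw [this]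
        norm_num
        rfl
    rw [hF (γ c) _ _ hcomb, Finset.sum_pair hne]
    have p1 : P (e1 : V) := ⟨j, by rw [v1]; norm_num⟩
    have p2 : P (e2 : V) := ⟨j, by rw [v2]; norm_num⟩
    simp only [f, if_pos p1, if_pos p2]
    norm_num
  have hR : ∀ c, c ∉ range Pool.Agent.X19.LU.q → F (γ c) = 3 := by
    intro c hc
    have hG : G 0 c = G 1 c := Pool.Agent.X19.LU.G_off hc 0 1
    let e1 : extremePoints ℝ K := ⟨G 1 c, Pool.Agent.X19.LU.G_ext (by simp) c⟩
    have hcomb : Comb K {e1} (fun _ => 1) ((γ c : K) : V) := by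
      refine ⟨fun _ _ => by norm_num, by simp, ?_⟩
      rw [Finset.sum_singleton, one_smul]
      exact hG
    rw [hF (γ c) _ _ hcomb, Finset.sum_singleton]
    have p1 : ¬ P (e1 : V) := by
      rintro ⟨j, hj⟩
      apply hj
      change G 1 c (Sum.inr j) = 0
      rw [Pool.Agent.X19.LU.G_inr, Set.indicator_of_notMem]
      intro h
      exact hc ⟨j, (mem_singleton_iff.1 h).symm⟩
    simp only [f, if_neg p1]
  -- Baire
  let C : ℕ ⊕ ℕ → Set X := Sum.elim (fun n => {c | ((5 / 2 : ℝ) : EReal) ≤ u n (γ c)})
    (fun j => {Pool.Agent.X19.LU.q j})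
  have hCc : ∀ i, IsClosed (C i) := by
    rintro (n | j)
    · exact ((hu n).isClosed_preimage _).preimage hγ
    · exact isClosed_singleton
  have hCu : ⋃ i, C i = univ := by
    refine eq_univ_of_forall fun c => mem_iUnion.2 ?_
    by_cases hc : c ∈ range Pool.Agent.X19.LU.q
    · obtain ⟨j, hj⟩ := hc
      exact ⟨Sum.inr j, mem_singleton_iff.2 hj.symm⟩
    · have h1 : Tendsto (fun n => u n (γ c)) atTop (𝓝 (((F (γ c) : ℕ∞) : ENNReal) : EReal)) :=
        hlim (γ c)
      rw [hR c hc] at h1
      have h2 : ((5 / 2 : ℝ) : EReal) < (((3 : ℕ∞) : ENNReal) : EReal) := by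
        have : (((3 : ℕ∞) : ENNReal) : EReal) = ((3 : ℝ) : EReal) := by norm_cast
        rw [this]
        exact EReal.coe_lt_coe_iff.2 (by norm_num)
      obtain ⟨n, hn⟩ := (h1.eventually (lt_mem_nhds h2)).exists
      exact ⟨Sum.inl n, hn.le⟩
  obtain ⟨i, c, hc⟩ := nonempty_interior_of_iUnion_of_closed hCc hCu
  obtain ⟨n, hn⟩ := nhd isOpen_interior hc
  rcases i with m | j
  · obtain ⟨j, hj⟩ := Pool.Agent.X19.LU.q_dense c n
    have h1 := interior_subset (hn _ hj)
    have h2 : ((5 / 2 : ℝ) : EReal) ≤ u m (γ (Pool.Agent.X19.LU.q j)) := h1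
    have h3 : u m (γ (Pool.Agent.X19.LU.q j)) ≤ (((F (γ (Pool.Agent.X19.LU.q j)) : ℕ∞) :
      ENNReal) : EReal) := (hmono _).ge_of_tendsto (hlim _) m
    rw [hQ j] at h3
    have h4 : (((2 : ℕ∞) : ENNReal) : EReal) = ((2 : ℝ) : EReal) := by norm_cast
    rw [h4] at h3
    have h5 := EReal.coe_le_coe_iff.1 (h2.trans h3)
    norm_num at h5
  · have h1 : ∀ d : X, (∀ i < n, d i = c i) → d = Pool.Agent.X19.LU.q j := fun d hd =>
      mem_singleton_iff.1 (interior_subset (hn d hd))
    have h2 := h1 c fun _ _ => rfl
    have h3 := h1 (Function.update c n (!c n)) fun i hi => by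
      rw [Function.update_of_ne (ne_of_lt hi)]
    rw [← h2] at h3
    have h4 := congrFun h3 n
    rw [Function.update_self] at h4
    simp at h4

end Pool.Agent.Results.MP_38292b_an.AdditiveExtensionFails
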